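import Pool.Agent.H550U.V.Step2
import Pool.Agent.H550U.Y.Base2

/-!
# The initial state
-/

namespace Pool.Agent.H550U.V

open Finset Pool.Agent.H550U.W Pool.Agent.H550U.Y

variable {L M υ g X : ℕ}

open Classical in
theorem base2 (X₁ : ℕ) (ψ : ℕ → ℕ)
    (htc : ∀ X, X₁ ≤ X → 2000 * (ψ X : ℝ) ≤ Real.log X ∧
      ∃ S : Finset (ℕ × ℕ), TCat X S ∧ (#S : ℝ) ≤ (X : ℝ) ^ 2 / Real.log X ^ (64 * ψ X + 300))
    (A : Finset ℕ) (hA : ∀ a ∈ A, PP a ∨ a = 1 ∨ a = 2) :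
    ∃ (l : List ℕ) (L M υ g X : ℕ) (S : Finset (ℕ × ℕ)) (D T TB : Finset ℕ) (r : ℕ) (b : List ℕ), X₁ ≤ X ∧
      St ψ l L M υ g X S D T TB r b ∧ ∀ a ∈ A, a ∈ l := by
  obtain ⟨L, M, υ, X, hp, hBM⟩ := base_par (X₁ + 2 * (A.sup id) + 2 + ⌈Real.exp #A⌉₊)
  obtain ⟨hM1, hυ1⟩ := hp.pos
  have hLn := hp.hL
  have hMX : M ≤ X := by
    rw [hp.hX]; exact Nat.le_mul_of_pos_right _ (Nat.pow_pos (by omega))
  obtain ⟨hψX, S, hS, hSU⟩ := htc X (by omega)
  have hb := hp.M_big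
  have hAL : #A ≤ L := by
    have h1 := Nat.le_ceil (Real.exp (#A : ℝ))
    have h2 : (⌈Real.exp (#A : ℝ)⌉₊ : ℝ) ≤ M := by exact_mod_cast (by omega : ⌈Real.exp (#A : ℝ)⌉₊ ≤ M)
    have h3 : (#A : ℝ) ≤ Real.log M := by
      rw [Real.le_log_iff_exp_le (by exact_mod_cast (by omega : 0 < M))]
      linarith
    have h4 := hp.logM
    have h5 : (#A : ℝ) ≤ L := by linarith
    exact_mod_cast h5
  have hX16 : 16 * M ≤ X := by
    rw [hp.hX, mul_comm]
    refine Nat.mul_le_mul_left _ ?_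
    calc 16 ≤ L := by omega
      _ ≤ L ^ 58 := Nat.le_self_pow (by norm_num) _
  obtain ⟨n₀, hn₀⟩ : ∃ n₀, n₀ = L ^ 9 := ⟨_, rfl⟩
  have hn₀1 : 1 ≤ n₀ := by rw [hn₀]; exact Nat.one_le_pow _ _ (by omega)
  have hn₀υ : 100 * (n₀ * (8 * υ)) ≤ M := by
    calc 100 * (n₀ * (8 * υ)) = υ * (800 * n₀) := by ring
      _ ≤ υ * L ^ 52 := by
          rw [hn₀]
          exact Nat.mul_le_mul_left _ (lp (by omega) (by omega) (by norm_num))
      _ ≤ M := hp.u1
  have hlin : ∀ a c : ℕ, c ≤ a → c * (8 * υ) ≤ a * (8 * υ) := fun a c h => Nat.mul_le_mul_right _ h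
  -- phase A
  obtain ⟨PA, hPA⟩ : ∃ PA : ℕ → Finset ℕ, ∀ i t, t ∈ PA i ↔
      (M / 2 + i * (8 * υ) < t ∧ t ≤ M / 2 + i * (8 * υ) + 8 * υ) ∧ PP t :=
    ⟨fun i => (Ioc (M / 2 + i * (8 * υ)) (M / 2 + i * (8 * υ) + 8 * υ)).filter fun t => PP t,
      fun i t => by rw [mem_filter, mem_Ioc]⟩
  have hwA := base_win hp hS PA (fun i => M / 2 + i * (8 * υ)) (L ^ 9) (by
    intro i hi
    rw [← hn₀] at hi
    have h1 := hlin n₀ i hi.le
    constructor <;> omega) (fun i _ t => hPA i t)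
  obtain ⟨τA, hτA, hpA⟩ := phase hp hS (fun i => M / 2 + i * (8 * υ)) (by
    intro i hi
    rw [← hn₀] at hi
    have h1 := hlin n₀ i hi.le
    constructor <;> omega) (fun i _ t => hPA i t) hwA ∅ (by simp; positivity) 0 trivial
  rw [← hn₀] at hτA hpA
  have hTA : ∀ t ∈ tset τA 0 n₀, PP t ∧ M ≤ 2 * t ∧ t ≤ M / 2 + n₀ * (8 * υ) := by
    intro t ht
    rw [mem_tset] at ht
    obtain ⟨i, h1, h2, h3⟩ := ht
    have h4 := (hτA.2.1 i h1 h2).1
    rw [h3, hPA] at h4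
    have h5 := hlin n₀ (i + 1) (by omega)
    have h6 : (i + 1) * (8 * υ) = i * (8 * υ) + 8 * υ := by ring
    exact ⟨h4.2, by omega, by omega⟩
  obtain ⟨D, hD⟩ : ∃ D, D = A ∪ tset τA 0 n₀ := ⟨_, rfl⟩
  have hDc : #D + 1 ≤ L ^ 64 := by
    have h1 : #D ≤ #A + n₀ := by
      rw [hD]
      refine (card_union_le _ _).trans (Nat.add_le_add_left ?_ _)
      unfold tset
      refine card_image_le.trans ?_
      rw [Nat.card_Ico]; omega
    have h2 : 3 * L ^ 9 ≤ L ^ 64 := lp (by omega) (by omega) (by norm_num)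
    have h3 : L ≤ L ^ 9 := Nat.le_self_pow (by norm_num) _
    omega
  have hBKc := card_BK_le (D := D) hp hDc hSU
  -- phase B
  obtain ⟨PB, hPB⟩ : ∃ PB : ℕ → Finset ℕ, ∀ i t, t ∈ PB i ↔
      (M / 2 + (n₀ + i) * (8 * υ) < t ∧ t ≤ M / 2 + (n₀ + i) * (8 * υ) + 8 * υ) ∧ PP t :=
    ⟨fun i => (Ioc (M / 2 + (n₀ + i) * (8 * υ)) (M / 2 + (n₀ + i) * (8 * υ) + 8 * υ)).filter fun t => PP t,
      fun i t => by rw [mem_filter, mem_Ioc]⟩
  have hwB := base_win hp hS PB (fun i => M / 2 + (n₀ + i) * (8 * υ)) (L ^ 9) (by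
    intro i hi
    rw [← hn₀] at hi
    have h1 := hlin (n₀ + n₀) (n₀ + i) (by omega)
    have h2 : (n₀ + n₀) * (8 * υ) = 2 * (n₀ * (8 * υ)) := by ring
    constructor <;> omega) (fun i _ t => hPB i t)
  obtain ⟨τB, hτB, hpB⟩ := phase hp hS (fun i => M / 2 + (n₀ + i) * (8 * υ)) (by
    intro i hi
    rw [← hn₀] at hi
    have h1 := hlin (n₀ + n₀) (n₀ + i) (by omega)
    have h2 : (n₀ + n₀) * (8 * υ) = 2 * (n₀ * (8 * υ)) := by ring
    constructor <;> omega) (fun i _ t => hPB i t) hwB (BK D (EE X S) (ψ X)) hBKc 0 trivial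
  rw [← hn₀] at hτB hpB
  have hTB : ∀ t ∈ tset τB 0 n₀, PP t ∧ M ≤ 2 * t ∧ t ≤ M ∧ M / 2 + n₀ * (8 * υ) < t := by
    intro t ht
    rw [mem_tset] at ht
    obtain ⟨i, h1, h2, h3⟩ := ht
    have h4 := (hτB.2.1 i h1 h2).1
    rw [h3, hPB] at h4
    have h5 := hlin (n₀ + n₀) (n₀ + (i + 1)) (by omega)
    have h6 : (n₀ + (i + 1)) * (8 * υ) = (n₀ + i) * (8 * υ) + 8 * υ := by ring
    have h7 : (n₀ + n₀) * (8 * υ) = 2 * (n₀ * (8 * υ)) := by ring
    have h8 := hlin (n₀ + i) n₀ (by omega)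
    exact ⟨h4.2, by omega, by omega, by omega⟩
  -- stage
  have hwC := base_win hp hS (wP M υ 8 (N0 L M υ 8)) (fun i => wpos M υ 8 (N0 L M υ 8) i) (NN L M υ 8) (by
    intro i hi
    have h1 := hp.top hi
    have h2 : M ≤ wpos M υ 8 (N0 L M υ 8) i := by unfold wpos; omega
    constructor <;> omega) (fun i _ t => mem_wP)
  obtain ⟨τ, hτ, hC⟩ := scale hp hS (P := wP M υ 8 (N0 L M υ 8)) (fun _ _ => rfl) hwC 0 trivial
  have hNNle := NN_le hp
  have hNNge : L ^ 17 ≤ NN L M υ 8 := by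
    unfold NN N0
    have : NG L = 16 * L ^ 17 := by unfold NG; ring
    omega
  obtain ⟨N, hN⟩ : ∃ N, N = NN L M υ 8 := ⟨_, rfl⟩
  have hN1 : 1 ≤ N := by rw [hN]; exact NN_pos _ _ _ _
  rw [← hN] at hτ hC hNNle hNNge
  have hwin : ∀ i, i < N → wpos M υ 8 (N0 L M υ 8) i < τ (i + 1) ∧ τ (i + 1) ≤ wpos M υ 8 (N0 L M υ 8) i + 8 * υ ∧
      PP (τ (i + 1)) ∧ τ (i + 1) ∉ EE X S := by
    intro i hi
    obtain ⟨h4, h5⟩ := hτ.2.1 i (Nat.zero_le _) hi
    rw [mem_wP] at h4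
    exact ⟨h4.1.1, h4.1.2, h4.2, h5⟩
  have hT : ∀ t ∈ tset τ 0 N, PP t ∧ t ∉ EE X S ∧ M < t ∧ t ≤ 4 * M := by
    intro t ht
    rw [mem_tset] at ht
    obtain ⟨i, h1, h2, h3⟩ := ht
    obtain ⟨h4, h5, h8, h9⟩ := hwin i h2
    rw [h3] at h4 h5 h8 h9
    have h6 := hp.top (i := i) (by omega)
    have h7 : M ≤ wpos M υ 8 (N0 L M υ 8) i := by unfold wpos; omega
    exact ⟨h8, h9, by omega, by omega⟩
  have hcardT : #(tset τ 0 N) = N := by
    have hinj : Set.InjOn (fun i => τ (i + 1)) ((Ico 0 N : Finset ℕ) : Set ℕ) := by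
      have key : ∀ i j, i < j → j < N → τ (i + 1) < τ (j + 1) := by
        intro i j hij hj
        have h1 := (hwin i (by omega)).2.1
        have h2 := (hwin j hj).1
        have h3 : wpos M υ 8 (N0 L M υ 8) (i + 1) ≤ wpos M υ 8 (N0 L M υ 8) j := wpos_mono hij
        have h4 : wpos M υ 8 (N0 L M υ 8) i + 8 * υ ≤ wpos M υ 8 (N0 L M υ 8) (i + 1) := by
          unfold wpos
          have e1 : (i + 1) * (8 * υ) = i * (8 * υ) + 8 * υ := by ring
          have e2 : (i - N0 L M υ 8) * υ ≤ (i + 1 - N0 L M υ 8) * υ := Nat.mul_le_mul_right _ (by omega)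
          omega
        omega
      intro i hi j hj hij
      rw [mem_coe, mem_Ico] at hi hj
      rcases Nat.lt_trichotomy i j with h | h | h
      · have := key i j h hj.2
        simp only at hij
        omega
      · exact h
      · have := key j i h hi.2
        simp only at hij
        omega
    unfold tset
    rw [card_image_of_injOn hinj, Nat.card_Ico]
    omega
  obtain ⟨F, hF⟩ : ∃ F, F = (D ∪ tset τB 0 n₀) ∪ tset τ 0 N := ⟨_, rfl⟩
  have hFmem : ∀ x, x ∈ F.sort (· ≥ ·) ↔ (x ∈ D ∨ x ∈ tset τB 0 n₀) ∨ x ∈ tset τ 0 N := by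
    intro x
    rw [Finset.mem_sort, hF, mem_union, mem_union]
  have hlast : τ N ∈ tset τ 0 N := mem_tset.mpr ⟨N - 1, Nat.zero_le _, by omega, by rw [Nat.sub_add_cancel hN1]⟩
  have hpw : (F.sort (· ≥ ·)).Pairwise (· > ·) := by
    have h1 : (F.sort (· ≥ ·)).Pairwise (· ≥ ·) := Finset.pairwise_sort F (· ≥ ·)
    have h2 : (F.sort (· ≥ ·)).Pairwise (· ≠ ·) := Finset.sort_nodup F (· ≥ ·)
    refine (h1.and h2).imp ?_
    rintro a b ⟨h3, h4⟩
    exact lt_of_le_of_ne h3 (Ne.symm h4)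
  obtain ⟨r, b, hrb⟩ : ∃ r b, F.sort (· ≥ ·) = r :: b := by
    cases hl : F.sort (· ≥ ·) with
    | nil =>
      have h1 := (hFmem (τ N)).mpr (Or.inr hlast)
      rw [hl] at h1
      exact absurd h1 List.not_mem_nil
    | cons r b => exact ⟨r, b, rfl⟩
  have hrmax : ∀ x ∈ F.sort (· ≥ ·), x ≤ r := by
    intro x hx
    rw [hrb] at hx hpw
    exact le_head hpw hx
  have hAsup : ∀ a ∈ A, 2 * a + 2 ≤ M := by
    intro a ha
    have h3 : a ≤ A.sup id := Finset.le_sup (f := id) ha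
    omega
  have hDsmall : ∀ d ∈ D, d ≤ M / 2 + n₀ * (8 * υ) := by
    intro d hd
    rw [hD, mem_union] at hd
    rcases hd with h | h
    · have := hAsup d h
      omega
    · exact (hTA d h).2.2
  have hrT : r ∈ tset τ 0 N := by
    have h1 : r ∈ F.sort (· ≥ ·) := by rw [hrb]; exact List.mem_cons_self
    have h4 := hrmax (τ N) ((hFmem _).mpr (Or.inr hlast))
    have h5 := (hT (τ N) hlast).2.2.1
    rcases (hFmem r).mp h1 with (h2 | h2) | h2
    · exfalso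
      have := hDsmall r h2
      omega
    · exfalso
      have := (hTB r h2).2.2.1
      omega
    · exact h2
  obtain ⟨hr1, hr2, hr3, hr4⟩ := hT r hrT
  have hlen : (F.sort (· ≥ ·)).length = #F := Finset.length_sort _
  refine ⟨F.sort (· ≥ ·), L, M, υ, 8, X, S, D, tset τ 0 N, tset τB 0 n₀, r, b, by omega,
    ⟨hp, hS, ?_, hC, hrb, ⟨hpw, ?_, ?_, ?_⟩, ?_, ?_, ?_, ?_, hr1, hr2, hr3, hr4, ?_, ?_⟩, ?_⟩
  · have h1 := hp.logX.2
    have h2 : (1000 * ψ X : ℝ) ≤ L := by linarith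
    exact_mod_cast h2
  · intro a ha
    rcases (hFmem a).mp ha with (h1 | h1) | h1
    · rw [hD, mem_union] at h1
      rcases h1 with h2 | h2
      · exact hA a h2
      · exact Or.inl (hTA a h2).1
    · exact Or.inl (hTB a h1).1
    · exact Or.inl (hT a h1).1
  · intro x hx
    exact (hFmem x).mpr (Or.inl (Or.inl hx))
  · intro x hx hxD d hd
    have h1 := hDsmall d hd
    rcases (hFmem x).mp hx with (h2 | h2) | h2
    · exact absurd h2 hxD
    · have := (hTB x h2).2.2.2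
      omega
    · have := (hT x h2).2.2.1
      omega
  · intro t ht
    exact ⟨(hFmem t).mpr (Or.inr ht), (hT t ht).2.2.1.le⟩
  · intro t ht
    exact ⟨(hFmem t).mpr (Or.inl (Or.inr ht)), (hTB t ht).2.1, (hTB t ht).2.2.1⟩
  · intro y hy1 hy2 hy3
    obtain ⟨t, ht, h1, -⟩ := hpA y hy1 hy2 hy3
    refine ⟨t, by rw [hD]; exact mem_union_right _ ht, ?_, h1⟩
    have := (hTA t ht).2.2
    omega
  · exact hpB
  · rw [hlen]
    have h1 : #F ≤ (#D + n₀) + N := by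
      rw [hF]
      refine (card_union_le _ _).trans (Nat.add_le_add ((card_union_le _ _).trans (Nat.add_le_add_left ?_ _)) ?_)
      · unfold tset
        refine card_image_le.trans ?_
        rw [Nat.card_Ico]; omega
      · rw [hcardT]
    have h2 : #D ≤ #A + n₀ := by
      rw [hD]
      refine (card_union_le _ _).trans (Nat.add_le_add_left ?_ _)
      unfold tset
      refine card_image_le.trans ?_
      rw [Nat.card_Ico]; omega
    have h3 : 10 * L ^ 58 ≤ L ^ 63 := lp (by omega) (by omega) (by norm_num)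
    have h4 : L ≤ L ^ 58 := Nat.le_self_pow (by norm_num) _
    have h5 : L ^ 9 ≤ L ^ 58 := Nat.pow_le_pow_right (by omega) (by norm_num)
    omega
  · rw [hlen]
    have h1 : #(tset τ 0 N) ≤ #F := by
      rw [hF]
      exact card_le_card subset_union_right
    omega
  · intro a ha
    exact (hFmem a).mpr (Or.inl (Or.inl (by rw [hD]; exact mem_union_left _ ha)))

end Pool.Agent.H550U.V
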