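import Pool.Agent.H550U.V.Ws
import Pool.Agent.H550U.Y.Ch

/-!
# Chains of lists
-/

namespace Pool.Agent.H550U.V

open Finset Pool.Agent.H550U.W Pool.Agent.H550U.Y

/-- the extension of a list, the head is not its own partner -/
def Ext (l l' : List ℕ) : Prop := ∃ (b : List ℕ) (a t : ℕ), l = a :: b ∧ t ∈ b ∧ 0 < t ∧ (a + t + 1).Prime ∧ l' = (a + t) :: l

/-- extension by the rule (least prime) -/
def UExt (l l' : List ℕ) : Prop := ∃ (b : List ℕ) (a t : ℕ), l = a :: b ∧ t ∈ b ∧ 0 < t ∧ (a + t + 1).Prime ∧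
  l' = (a + t) :: l ∧ ∀ t' ∈ l, (a + t' + 1).Prime → t ≤ t'

lemma UExt.ext {l l' : List ℕ} (h : UExt l l') : Ext l l' := by
  obtain ⟨b, a, t, h1, h2, h3, h4, h5, -⟩ := h
  exact ⟨b, a, t, h1, h2, h3, h4, h5⟩

/-- chains with `n` steps, at most `v` of them not by the rule -/
inductive Ch : List ℕ → List ℕ → ℕ → ℕ → Prop
  | refl (l : List ℕ) : Ch l l 0 0
  | ext {l l' l'' : List ℕ} {n v : ℕ} : Ch l l' n v → Ext l' l'' → Ch l l'' (n + 1) (v + 1)
  | uext {l l' l'' : List ℕ} {n v : ℕ} : Ch l l' n v → UExt l' l'' → Ch l l'' (n + 1) v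

lemma Ch.length {l l' : List ℕ} {n v : ℕ} (h : Ch l l' n v) : l'.length = l.length + n := by
  induction h with
  | refl => rfl
  | ext _ h1 ih =>
    obtain ⟨b, a, t, h2, h3, h4, h5, h6⟩ := h1
    rw [h6, List.length_cons, ih]; ring
  | uext _ h1 ih =>
    obtain ⟨b, a, t, h2, h3, h4, h5, h6⟩ := h1.ext
    rw [h6, List.length_cons, ih]; ring

lemma mem_tail {z t : ℕ} {b : List ℕ} (h : t ∈ z :: b) (hlt : t < z) : t ∈ b := by
  rcases List.mem_cons.mp h with h1 | h1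
  · omega
  · exact h1

theorem wk_ch {R : ℕ} {D T : Finset ℕ} (hDR : ∀ t ∈ D, t ≤ R) (hTR : ∀ t ∈ T, t ≤ R) {y z n v : ℕ}
    (h : Ws R D T y z n v) : ∀ b : List ℕ, Inv D (y :: b) → PP y →
    (∀ t ∈ T, t ∈ y :: b) → ∃ b' : List ℕ, Ch (y :: b) (z :: b') n v ∧ Inv D (z :: b') ∧ PP z ∧
      ∀ x ∈ y :: b, x ∈ z :: b' := by
  induction h with
  | refl =>
    intro b hI hy hT
    exact ⟨b, Ch.refl _, hI, hy, fun x hx => hx⟩
  | @tru z n v z' _ hRz hz' hmin ih =>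
    intro b hI hy hT
    obtain ⟨b', h1, h2, h3, h4⟩ := ih b hI hy hT
    obtain ⟨t, htD, rfl, hp⟩ := hz'
    have htl : t ∈ z :: b' := h2.sub t htD
    have ht0 := h2.pos htl
    have htz : t < z := by have := hDR t htD; omega
    refine ⟨z :: b', h1.uext ⟨b', z, t, rfl, mem_tail htl htz, ht0, hp.2, rfl, ?_⟩, h2.cons ht0 hp, hp,
      fun x hx => List.mem_cons_of_mem _ (h4 x hx)⟩
    intro t' ht' hpr
    by_cases htD' : t' ∈ D
    · have hz6 := h3.1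
      have hzp := h3.pos
      rcases h2.elt t' ht' with h5 | h5 | h5
      · have h6 : PP (z + t') := ⟨Nat.dvd_add hz6 h5.1, hpr⟩
        have := hmin t' htD' h6
        omega
      · exfalso
        have h6 : 2 ∣ z + t' + 1 := by omega
        have h7 := (Nat.prime_dvd_prime_iff_eq Nat.prime_two hpr).mp h6
        omega
      · exfalso
        have h6 : 3 ∣ z + t' + 1 := by omega
        have h7 := (Nat.prime_dvd_prime_iff_eq Nat.prime_three hpr).mp h6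
        omega
    · exact (h2.out t' ht' htD' t htD).le
  | @vio z n v t _ h0 ht hp ih =>
    intro b hI hy hT
    obtain ⟨b', h1, h2, h3, h4⟩ := ih b hI hy hT
    have htl : t ∈ z :: b' := h4 t (hT t ht)
    have ht0 := h2.pos htl
    have htz : t < z := by have := hTR t ht; omega
    exact ⟨z :: b', h1.ext ⟨b', z, t, rfl, mem_tail htl htz, ht0, hp.2, rfl⟩, h2.cons ht0 hp, hp,
      fun x hx => List.mem_cons_of_mem _ (h4 x hx)⟩

/-- segments -/
def Seg (ψ : ℕ → ℕ) (l l' : List ℕ) : Prop := ∃ n v : ℕ, Ch l l' n v ∧ 1 ≤ n ∧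
  v * (ψ (l.headD 0) + 1) ≤ 2 * n ∧ n * (ψ (l.headD 0) + 1) ≤ l.length

theorem sel_seg (ψ : ℕ → ℕ) {P : ℕ → Finset ℕ} {Adm : ℕ → ℕ → ℕ → Prop} (R : ℕ) (D T : Finset ℕ) (K Λ : ℕ)
    (hDR : ∀ t ∈ D, t ≤ R) (hTR : ∀ t ∈ T, t ≤ R)
    (hAdm : ∀ i a c, Adm i a c → ∃ n v, Ws R D T a c n v ∧ 1 ≤ n ∧ n ≤ Λ ∧ v * (K + 1) ≤ 2 * n)
    (τ : ℕ → ℕ) (s : ℕ) (b : List ℕ) (hI : Inv D (τ s :: b)) (hP : PP (τ s)) (hT : ∀ t ∈ T, t ∈ τ s :: b)
    (hlen : Λ * (K + 1) ≤ (τ s :: b).length) :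
    ∀ n : ℕ, (∀ i, s ≤ i → i < s + n → τ (i + 1) ∈ P i ∧ Adm i (τ i) (τ (i + 1))) → (∀ i, s ≤ i → i < s + n → ψ (τ i) ≤ K) →
    ∃ b' : List ℕ, Relation.ReflTransGen (Seg ψ) (τ s :: b) (τ (s + n) :: b') ∧ Inv D (τ (s + n) :: b') ∧
      PP (τ (s + n)) ∧ (∀ x ∈ τ s :: b, x ∈ τ (s + n) :: b') ∧ (∀ t ∈ tset τ s (s + n), t ∈ τ (s + n) :: b') ∧
      (τ s :: b).length + n ≤ (τ (s + n) :: b').length ∧ (τ (s + n) :: b').length ≤ (τ s :: b).length + n * Λ := by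
  intro n
  induction n with
  | zero =>
    intro _ _
    refine ⟨b, Relation.ReflTransGen.refl, hI, hP, fun x hx => hx, ?_, by simp, by simp⟩
    intro t ht
    rw [mem_tset] at ht
    obtain ⟨i, h1, h2, _⟩ := ht
    omega
  | succ n ih =>
    intro h hψ
    obtain ⟨b₁, h1, h2, h3, h4, h5, h6, h7⟩ := ih (fun i hi hi' => h i hi (by omega)) (fun i hi hi' => hψ i hi (by omega))
    obtain ⟨k, v, w1, w2, w3, w4⟩ := hAdm _ _ _ (h (s + n) (by omega) (by omega)).2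
    obtain ⟨b₂, c1, c2, c3, c4⟩ := wk_ch hDR hTR w1 b₁ h2 h3 (fun t ht => h4 t (hT t ht))
    have hψn := hψ (s + n) (by omega) (by omega)
    have hseg : Seg ψ (τ (s + n) :: b₁) (τ (s + n + 1) :: b₂) := by
      refine ⟨k, v, c1, w2, ?_, ?_⟩
      · change v * (ψ (τ (s + n)) + 1) ≤ 2 * k
        exact (Nat.mul_le_mul_left _ (by omega)).trans w4
      · change k * (ψ (τ (s + n)) + 1) ≤ _
        calc k * (ψ (τ (s + n)) + 1) ≤ Λ * (K + 1) := Nat.mul_le_mul w3 (by omega)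
          _ ≤ _ := hlen
          _ ≤ _ := by omega
    have hl := c1.length
    refine ⟨b₂, h1.tail hseg, c2, c3, fun x hx => c4 x (h4 x hx), ?_, ?_, ?_⟩
    · intro t ht
      rw [mem_tset] at ht
      obtain ⟨i, e1, e2, e3⟩ := ht
      rcases Nat.lt_or_ge i (s + n) with h8 | h8
      · exact c4 t (h5 t (mem_tset.mpr ⟨i, e1, h8, e3⟩))
      · have : i = s + n := by omega
        subst this
        rw [← e3]
        exact List.mem_cons_self
    · change _ ≤ (τ (s + n + 1) :: b₂).length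
      omega
    · change (τ (s + n + 1) :: b₂).length ≤ _
      have : (n + 1) * Λ = n * Λ + Λ := by ring
      omega

end Pool.Agent.H550U.V
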