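import Pool.Agent.H550U.V.Win
import Pool.Agent.H550U.Y.Leg

/-!
# Legs
-/

namespace Pool.Agent.H550U.V

open Finset Pool.Agent.H550U.W Pool.Agent.H550U.Y

variable {L M υ g X : ℕ}

lemma Ch.suffix {l l' : List ℕ} {n v : ℕ} (h : Ch l l' n v) : l <:+ l' := by
  induction h with
  | refl => exact List.suffix_refl _
  | ext _ h1 ih =>
    obtain ⟨b, a, t, h2, h3, h4, h5, h6⟩ := h1
    rw [h6]
    exact ih.trans (List.suffix_cons _ _)
  | uext _ h1 ih =>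
    obtain ⟨b, a, t, h2, h3, h4, h5, h6⟩ := h1.ext
    rw [h6]
    exact ih.trans (List.suffix_cons _ _)

lemma seg_suffix {ψ : ℕ → ℕ} {l l' : List ℕ} (h : Relation.ReflTransGen (Seg ψ) l l') : l <:+ l' := by
  induction h with
  | refl => exact List.suffix_refl _
  | tail _ h1 ih =>
    obtain ⟨n, v, h2, -⟩ := h1
    exact ih.trans h2.suffix

theorem leg {ψ : ℕ → ℕ} {D TT : Finset ℕ} {K Λ : ℕ} {E E' : Finset ℕ} {p : ℕ → ℕ} {W n XX : ℕ} {τ : ℕ → ℕ} {r : ℕ}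
    {b : List ℕ} {R : ℕ} (hDR : ∀ t ∈ D, t ≤ R) (hTR : ∀ t ∈ TT, t ≤ R)
    (hSel : Sel (cP p W) (cOk p W E) (aAdm R D TT K Λ E E') 0 n r τ) (hI : Inv D (r :: b)) (hr : PP r)
    (hTT : ∀ t ∈ TT, t ∈ r :: b) (hlen : Λ * (K + 1) ≤ (r :: b).length) (hψ : ∀ x, x ≤ XX → ψ x ≤ K) (hrX : r ≤ XX)
    (hpX : ∀ i, i < n → p (i + 1) + W ≤ XX) :
    ∃ b' : List ℕ, Relation.ReflTransGen (Seg ψ) (r :: b) (τ n :: b') ∧ Inv D (τ n :: b') ∧
      PP (τ n) ∧ (∀ x ∈ r :: b, x ∈ τ n :: b') ∧ (∀ t ∈ tset τ 0 n, t ∈ τ n :: b') ∧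
      (r :: b).length + n ≤ (τ n :: b').length ∧ (τ n :: b').length ≤ (r :: b).length + n * Λ := by
  obtain ⟨h0, h1, -⟩ := hSel
  have hmain := sel_seg ψ (P := cP p W) (Adm := aAdm R D TT K Λ E E') R D TT K Λ hDR hTR (fun i a c h => h.1) τ 0 b
    (by rw [h0]; exact hI) (by rw [h0]; exact hr) (by rw [h0]; exact hTT) (by rw [h0]; exact hlen) n
    (fun i hi hi' => h1 i hi (by omega)) (by
      intro i _ hi
      apply hψ
      rcases Nat.eq_zero_or_pos i with h2 | h2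
      · rw [h2, h0]; exact hrX
      · obtain ⟨j, rfl⟩ : ∃ j, i = j + 1 := ⟨i - 1, by omega⟩
        have h3 := (h1 j (Nat.zero_le _) (by omega)).1
        rw [mem_cP] at h3
        have h4 := hpX j (by omega)
        omega)
  rw [h0, Nat.zero_add] at hmain
  exact hmain

end Pool.Agent.H550U.V
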