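import Pool.Agent.H550U.V.Leg
import Pool.Agent.H550U.Y.Step2

/-!
# From one scale to the next
-/

namespace Pool.Agent.H550U.V

open Finset Pool.Agent.H550U.W Pool.Agent.H550U.Y

variable {L M υ g X : ℕ}

/-- the states -/
structure St (ψ : ℕ → ℕ) (l : List ℕ) (L M υ g X : ℕ) (S : Finset (ℕ × ℕ)) (D T TB : Finset ℕ) (r : ℕ) (b : List ℕ) :
    Prop where
  par : Par L M υ g X
  tcat : TCat X S
  K1 : 1000 * ψ X ≤ L
  conn : Conn L M X S T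
  hl : l = r :: b
  inv : Inv D l
  hT : ∀ t ∈ T, t ∈ l ∧ M ≤ t
  hTB : ∀ t ∈ TB, t ∈ l ∧ M ≤ 2 * t ∧ t ≤ M
  phA : ∀ y, PP y → y ≤ X / 4 → y ∉ EE X S → ∃ t ∈ D, t ≤ M ∧ PP (y + t)
  phB : ∀ y, PP y → y ≤ X / 4 → y ∉ EE X S → ∃ t ∈ TB, PP (y + t) ∧ y + t ∉ BK D (EE X S) (ψ X)
  r1 : PP r
  r2 : r ∉ EE X S
  r3 : M < r
  r4 : r ≤ 4 * M
  len1 : l.length ≤ L ^ 63
  len2 : L ^ 17 ≤ l.length

theorem step2 (X₁ : ℕ) (ψ : ℕ → ℕ) (hψm : Monotone ψ)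
    (htc : ∀ X, X₁ ≤ X → 2000 * (ψ X : ℝ) ≤ Real.log X ∧
      ∃ S : Finset (ℕ × ℕ), TCat X S ∧ (#S : ℝ) ≤ (X : ℝ) ^ 2 / Real.log X ^ (64 * ψ X + 300))
    {l : List ℕ} {L M υ g X : ℕ} {S : Finset (ℕ × ℕ)} {D T TB : Finset ℕ} {r : ℕ} {b : List ℕ} (hX1 : X₁ ≤ X)
    (hst : St ψ l L M υ g X S D T TB r b) :
    ∃ (l' : List ℕ) (L' M' υ' g' X' : ℕ) (S' : Finset (ℕ × ℕ)) (D' T' TB' : Finset ℕ) (r' : ℕ) (b' : List ℕ),
      X₁ ≤ X' ∧ St ψ l' L' M' υ' g' X' S' D' T' TB' r' b' ∧ Relation.TransGen (Seg ψ) l l' := by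
  classical
  obtain ⟨hp, hS, hK, hT, hl, hI, hTl, hTBl, hA, hB, hr, hrE, hMr, hr4, hlen1, hlen2⟩ := hst
  subst hl
  obtain ⟨hb1, hb2, hb3⟩ := hp.M_big
  have hLn := hp.hL
  obtain ⟨K, hKd⟩ : ∃ K, K = ψ X := ⟨_, rfl⟩
  rw [← hKd] at hK hB
  obtain ⟨υ', hυ'⟩ : ∃ υ', υ' = M / 32 := ⟨_, rfl⟩
  obtain ⟨G, hG⟩ : ∃ G, G = L ^ 2 * υ' := ⟨_, rfl⟩
  have hυ'1 : 1 ≤ υ' := by omega
  have hL2 : 1000000 * L ≤ L ^ 2 := by rw [sq]; exact Nat.mul_le_mul_right _ hLn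
  have hG0 : 0 < G := by rw [hG]; exact Nat.mul_pos (by omega) (by omega)
  have hG64 : L ^ 2 * M ≤ 64 * G := by
    rw [hG]
    calc L ^ 2 * M ≤ L ^ 2 * (64 * υ') := Nat.mul_le_mul_left _ (by omega)
      _ = 64 * (L ^ 2 * υ') := by ring
  have hG32 : 32 * G ≤ L ^ 2 * M := by
    rw [hG]
    calc 32 * (L ^ 2 * υ') = L ^ 2 * (32 * υ') := by ring
      _ ≤ L ^ 2 * M := Nat.mul_le_mul_left _ (by omega)
  have hL2M : 1000000 * M ≤ L ^ 2 * M := Nat.mul_le_mul_right _ (by omega)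
  have hMG : M ≤ G := by omega
  obtain ⟨J, hJ⟩ : ∃ J, J = L ^ 56 * M / G + 1 := ⟨_, rfl⟩
  have hJ1 : L ^ 56 * M ≤ J * G ∧ J * G ≤ L ^ 56 * M + G := by
    have h1 := Nat.div_add_mod (L ^ 56 * M) G
    have h2 := Nat.mod_lt (L ^ 56 * M) hG0
    have h3 : J * G = G * (L ^ 56 * M / G) + G := by rw [hJ]; ring
    rw [h3]
    omega
  have hJle : J ≤ L ^ 56 + 1 := by
    rw [hJ]
    refine Nat.add_le_add_right ?_ 1
    apply Nat.div_le_of_le_mul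
    rw [mul_comm]
    exact Nat.mul_le_mul_right _ hMG
  have hJge : L ^ 54 ≤ J := by
    have h1 : L ^ 54 * G ≤ J * G := by
      refine le_trans ?_ hJ1.1
      calc L ^ 54 * G ≤ L ^ 54 * (L ^ 2 * M) := Nat.mul_le_mul_left _ (by omega)
        _ = L ^ 56 * M := by ring
    exact Nat.le_of_mul_le_mul_right h1 hG0
  obtain ⟨M', hM'⟩ : ∃ M', M' = r + (J + 1) * G := ⟨_, rfl⟩
  have hM'' : M' = r + J * G + G := by rw [hM']; ring
  have hM'1 : L ^ 56 * M ≤ M' := by omega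
  have h56 : 1000000 * (L ^ 2 * M) ≤ L ^ 56 * M := by
    calc 1000000 * (L ^ 2 * M) = (1000000 * L ^ 2) * M := by ring
      _ ≤ L ^ 56 * M := Nat.mul_le_mul_right _ (lp (by omega) (by omega) (by norm_num))
  have hM'2 : M' ≤ 2 * L ^ 56 * M := by
    have h4 : 2 * L ^ 56 * M = 2 * (L ^ 56 * M) := by ring
    omega
  obtain ⟨L', hL'⟩ : ∃ L', L' = ⌈Real.log M'⌉₊ := ⟨_, rfl⟩
  obtain ⟨X', hX'⟩ : ∃ X', X' = M' * L' ^ 58 := ⟨_, rfl⟩
  obtain ⟨hp', hLL', hL'2⟩ := next2 hp hυ' hM'1 hM'2 hL' hX'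
  obtain ⟨g', hg'⟩ : ∃ g', g' = L ^ 2 := ⟨_, rfl⟩
  rw [← hg'] at hp'
  have hG' : g' * υ' = G := by rw [hg', hG]
  have hMM' : M ≤ M' := by omega
  have hXX' : X ≤ X' := by
    rw [hp.hX, hX']
    exact Nat.mul_le_mul hMM' (Nat.pow_le_pow_left (by omega) 58)
  obtain ⟨hψX', S', hS', hSU'⟩ := htc X' (hX1.trans hXX')
  have hbig : 16 * (2 * L ^ 56 * M) ≤ X / 4 := by
    rw [Nat.le_div_iff_mul_le (by norm_num), hp.hX]
    calc 16 * (2 * L ^ 56 * M) * 4 = M * (128 * L ^ 56) := by ring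
      _ ≤ M * L ^ 58 := Nat.mul_le_mul_left _ (lp (by omega) (by omega) (by norm_num))
  have hυM : 32 * υ' ≤ M := by omega
  have hE' : (#(EE X' S') : ℝ) ≤ υ' / (L : ℝ) ^ 184 := by
    refine (hp'.E_le hS').trans ?_
    have h1 : (L : ℝ) ^ 184 ≤ (L' : ℝ) ^ 184 :=
      pow_le_pow_left₀ (Nat.cast_nonneg _) (by exact_mod_cast (by omega : L ≤ L')) _
    have h2 : (0 : ℝ) < (L : ℝ) ^ 184 := pow_pos (by exact_mod_cast (by omega : 0 < L)) _
    exact div_le_div₀ (Nat.cast_nonneg _) le_rfl h2 h1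
  have hDpos : ∀ t ∈ D, 0 < t := fun t ht => hI.pos (hI.sub t ht)
  have hwin := fun (p : ℕ → ℕ) (n : ℕ) => chain_win hp hS hT (fun t ht => (hTl t ht).2) hK hDpos
    (fun t ht => (hTBl t ht).2) hMr hA hB hυ' hG hr hrE (by omega) (EE X' S') hE' L' (by omega) hL'2 p n
  have hψX : ∀ x, x ≤ X → ψ x ≤ K := fun x hx => by rw [hKd]; exact hψm hx
  have hTT : ∀ t ∈ TB ∪ T, t ∈ r :: b := by
    intro t ht
    rcases mem_union.mp ht with h | h
    · exact (hTBl t h).1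
    · exact (hTl t h).1
  have hDR : ∀ t ∈ D, t ≤ r := fun t ht => le_head hI.srt (hI.sub t ht)
  have hTR : ∀ t ∈ TB ∪ T, t ≤ r := fun t ht => le_head hI.srt (hTT t ht)
  have hΛ : L ^ 3 * (K + 1) ≤ (r :: b).length := by
    refine le_trans ?_ hlen2
    calc L ^ 3 * (K + 1) ≤ L ^ 3 * L := Nat.mul_le_mul_left _ (by omega)
      _ = L ^ 4 := by ring
      _ ≤ L ^ 17 := Nat.pow_le_pow_right (by omega) (by norm_num)
  obtain ⟨n₀, hn₀⟩ : ∃ n₀, n₀ = L' ^ 9 := ⟨_, rfl⟩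
  have hn₀J : 2 * n₀ + 1 ≤ J ∧ 1 ≤ n₀ ∧ 8 * n₀ * G ≤ L ^ 56 * M := by
    have h1 : n₀ ≤ 512 * L ^ 9 := by
      rw [hn₀]
      calc L' ^ 9 ≤ (2 * L) ^ 9 := Nat.pow_le_pow_left hL'2 9
        _ = 512 * L ^ 9 := by ring
    have h2 : 10000 * L ^ 9 ≤ L ^ 54 := lp (by omega) (by omega) (by norm_num)
    have h3 : 1 ≤ n₀ := by rw [hn₀]; exact Nat.one_le_pow _ _ (by omega)
    have h4 : 1 ≤ L ^ 9 := Nat.one_le_pow _ _ (by omega)
    refine ⟨by omega, h3, ?_⟩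
    calc 8 * n₀ * G ≤ 8 * (512 * L ^ 9) * (L ^ 2 * M) :=
          Nat.mul_le_mul (Nat.mul_le_mul_left _ h1) (by omega)
      _ = (4096 * L ^ 11) * M := by ring
      _ ≤ L ^ 56 * M := Nat.mul_le_mul_right _ (lp (by omega) (by omega) (by norm_num))
  obtain ⟨J₁, hJ₁⟩ : ∃ J₁, J = J₁ + 2 * n₀ := ⟨J - 2 * n₀, by omega⟩
  have hδ1 : 1 / (2 * (L' : ℝ) ^ 35) < 1 := by
    have h1 : (1 : ℝ) ≤ (L' : ℝ) ^ 35 := one_le_pow₀ (by exact_mod_cast (by omega : 1 ≤ L'))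
    rw [div_lt_one (by positivity)]
    linarith
  have hlin : ∀ a c : ℕ, c ≤ a → c * G ≤ a * G := fun a c h => Nat.mul_le_mul_right _ h
  -- travel
  have hwin1 := hwin (fun j => r + j * G) J₁ (by
      intro i _
      have : (i + 1) * G = i * G + G := by ring
      omega) (by
      intro i hi
      have := hlin J i (by omega)
      omega) (fun i _ => Nat.le_add_right _ _)
  obtain ⟨τ₁, hτ₁, -⟩ := greedy (P := cP (fun j => r + j * G) (8 * υ')) (ι := ℕ) (1 / (2 * (L' : ℝ) ^ 35)) 1 hδ1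
    hδ1.le hwin1.ok J₁ 0 r ⟨by simp, by simp, hr, hrE⟩
    (fun i h1 h2 => hwin1.ne i h1 (by omega)) (fun i h1 h2 => hwin1.adm i h1 (by omega)) ∅ (fun _ => ∅) (fun _ _ => ∅)
    (by simp) (by simp) (by simp)
  rw [Nat.zero_add] at hτ₁
  obtain ⟨b₁, a1, a2, a3, a4, -, a6, a7⟩ := leg (ψ := ψ) (XX := X) hDR hTR hτ₁ hI hr hTT hΛ hψX (by omega) (by
    intro i hi
    have := hlin J (i + 1) (by omega)
    omega)
  obtain ⟨r₁, hr₁⟩ : ∃ r₁, r₁ = τ₁ J₁ := ⟨_, rfl⟩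
  have hok1 := hτ₁.2.2
  rw [← hr₁] at a1 a2 a3 a4 a6 a7 hok1
  -- phase A
  have hwinA := hwin (fun j => r + (J₁ + j) * G) n₀ (by
      intro i _
      have : (J₁ + (i + 1)) * G = (J₁ + i) * G + G := by ring
      omega) (by
      intro i hi
      have := hlin J (J₁ + i) (by omega)
      omega) (fun i _ => Nat.le_add_right _ _)
  have hJn : 2 * ((J₁ + 1) * G) ≥ J * G := by
    have e1 : J * G = J₁ * G + 2 * (n₀ * G) := by rw [hJ₁]; ring
    have e2 : 8 * n₀ * G = 8 * (n₀ * G) := by ring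
    have e3 : (J₁ + 1) * G = J₁ * G + G := by ring
    omega
  have hqX' : 16 * (M' * L') ≤ X' := by
    rw [hX']
    calc 16 * (M' * L') = M' * (16 * L' ^ 1) := by rw [pow_one]; ring
      _ ≤ M' * L' ^ 58 := Nat.mul_le_mul_left _ (lp (by omega) (by omega) (by norm_num))
  have hM'L' : M' ≤ M' * L' := Nat.le_mul_of_pos_right _ (by omega)
  rw [hn₀] at hwinA
  obtain ⟨τA, hτA, hpA⟩ := phase hp' hS' (fun i => r + (J₁ + (i + 1)) * G) (by
      intro i hi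
      have h1 := hlin J (J₁ + (i + 1)) (by omega)
      have h2 := hlin (J₁ + (i + 1)) (J₁ + 1) (by omega)
      omega) (fun i _ t => mem_cP) hwinA ∅ (by simp; positivity) r₁ (by
      refine ⟨?_, ?_, hok1.2.2.1, hok1.2.2.2⟩
      · simpa using hok1.1
      · simpa using hok1.2.1)
  rw [← hn₀] at hτA hpA
  have hTT1 : ∀ t ∈ TB ∪ T, t ∈ r₁ :: b₁ := fun t ht => a4 t (hTT t ht)
  obtain ⟨b₂, c1, c2, c3, c4, c5, c6, c7⟩ := leg (ψ := ψ) (XX := X) hDR hTR hτA a2 a3 hTT1 (by omega) hψX (by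
      have e1 : r₁ ≤ r + J₁ * G + 8 * υ' := hok1.2.1
      have e2 := hlin J J₁ (by omega)
      omega) (by
    intro i hi
    have := hlin J (J₁ + (i + 1)) (by omega)
    omega)
  obtain ⟨r₂, hr₂⟩ : ∃ r₂, r₂ = τA n₀ := ⟨_, rfl⟩
  have hok2 := hτA.2.2
  rw [← hr₂] at c1 c2 c3 c4 c5 c6 c7 hok2
  obtain ⟨D', hD'⟩ : ∃ D' : Finset ℕ, D' = (r₂ :: b₂).toFinset := ⟨_, rfl⟩
  have hD'mem : ∀ x, x ∈ D' ↔ x ∈ r₂ :: b₂ := fun x => by rw [hD', List.mem_toFinset]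
  -- lengths
  have hlenA : (r₂ :: b₂).length ≤ L ^ 63 + J * L ^ 3 := by
    have h1 : J₁ * L ^ 3 + n₀ * L ^ 3 ≤ J * L ^ 3 := by
      rw [← Nat.add_mul]; exact Nat.mul_le_mul_right _ (by omega)
    omega
  have hL'63 : L ^ 63 + L' ^ 62 ≤ L' ^ 63 := by
    have h1 : L ^ 63 ≤ L * L' ^ 62 := by
      calc L ^ 63 = L * L ^ 62 := by ring
        _ ≤ L * L' ^ 62 := Nat.mul_le_mul_left _ (Nat.pow_le_pow_left (by omega) 62)
    calc L ^ 63 + L' ^ 62 ≤ L * L' ^ 62 + L' ^ 62 := Nat.add_le_add_right h1 _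
      _ = (L + 1) * L' ^ 62 := by ring
      _ ≤ L' * L' ^ 62 := Nat.mul_le_mul_right _ hLL'
      _ = L' ^ 63 := by ring
  have hNNle := NN_le hp'
  have htot : (J + NN L' M' υ' g') * L ^ 3 ≤ L' ^ 62 := by
    have h1 : J ≤ 2 * L' ^ 58 := by
      have e1 : L ^ 56 ≤ L' ^ 58 :=
        (Nat.pow_le_pow_left (by omega) 56).trans (Nat.pow_le_pow_right (by omega) (by norm_num))
      have e2 : 1 ≤ L' ^ 58 := Nat.one_le_pow _ _ (by omega)
      omega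
    calc (J + NN L' M' υ' g') * L ^ 3 ≤ (3 * L' ^ 58) * L' ^ 3 :=
          Nat.mul_le_mul (by omega) (Nat.pow_le_pow_left (by omega) 3)
      _ = 3 * L' ^ 61 := by ring
      _ ≤ L' ^ 62 := lp (by omega) (by omega) (by norm_num)
  have hJL3 : J * L ^ 3 ≤ (J + NN L' M' υ' g') * L ^ 3 := Nat.mul_le_mul_right _ (by omega)
  have hD'c : #D' + 1 ≤ L' ^ 64 := by
    have h1 : #D' ≤ (r₂ :: b₂).length := by rw [hD']; exact List.toFinset_card_le _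
    have h2 : 2 * L' ^ 63 ≤ L' ^ 64 := lp (by omega) (by omega) (by norm_num)
    have h3 : 1 ≤ L' ^ 63 := Nat.one_le_pow _ _ (by omega)
    omega
  have hBKc := card_BK_le (D := D') hp' hD'c hSU'
  -- phase B
  have hwinB := hwin (fun j => r + (J₁ + n₀ + j) * G) n₀ (by
      intro i _
      have : (J₁ + n₀ + (i + 1)) * G = (J₁ + n₀ + i) * G + G := by ring
      omega) (by
      intro i hi
      have := hlin J (J₁ + n₀ + i) (by omega)
      omega) (fun i _ => Nat.le_add_right _ _)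
  rw [hn₀] at hwinB
  obtain ⟨τB, hτB, hpB⟩ := phase hp' hS' (fun i => r + (J₁ + L' ^ 9 + (i + 1)) * G) (by
      intro i hi
      rw [← hn₀] at hi ⊢
      have h1 := hlin J (J₁ + n₀ + (i + 1)) (by omega)
      have h2 := hlin (J₁ + n₀ + (i + 1)) (J₁ + 1) (by omega)
      omega) (fun i _ t => mem_cP) hwinB (BK D' (EE X' S') (ψ X')) hBKc r₂ (by
      refine ⟨?_, ?_, hok2.2.2.1, hok2.2.2.2⟩
      · simpa [hn₀] using hok2.1
      · simpa [hn₀] using hok2.2.1)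
  rw [← hn₀] at hτB hpB
  have hTT2 : ∀ t ∈ TB ∪ T, t ∈ r₂ :: b₂ := fun t ht => c4 t (hTT1 t ht)
  obtain ⟨b₃, d1, d2, d3, d4, d5, d6, d7⟩ := leg (ψ := ψ) (XX := X) hDR hTR hτB c2 c3 hTT2 (by omega) hψX (by
      have e1 : r₂ ≤ r + (J₁ + n₀) * G + 8 * υ' := hok2.2.1
      have e2 := hlin J (J₁ + n₀) (by omega)
      omega) (by
    intro i hi
    have := hlin J (J₁ + n₀ + (i + 1)) (by omega)
    omega)
  obtain ⟨r₃, hr₃⟩ : ∃ r₃, r₃ = τB n₀ := ⟨_, rfl⟩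
  have hok3 := hτB.2.2
  rw [← hr₃] at d1 d2 d3 d4 d5 d6 d7 hok3
  -- stage
  obtain ⟨p, hp0, hps⟩ : ∃ p : ℕ → ℕ, p 0 = r + J * G ∧ ∀ i, p (i + 1) = wpos M' υ' g' (N0 L' M' υ' g') i :=
    ⟨fun i => Nat.casesOn i (r + J * G) fun i => wpos M' υ' g' (N0 L' M' υ' g') i, rfl, fun _ => rfl⟩
  have hwstep : ∀ i, wpos M' υ' g' (N0 L' M' υ' g') i + G ≤ wpos M' υ' g' (N0 L' M' υ' g') (i + 1) ∧
      wpos M' υ' g' (N0 L' M' υ' g') (i + 1) ≤ wpos M' υ' g' (N0 L' M' υ' g') i + G + υ' := by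
    intro i
    unfold wpos
    rw [hG']
    have h1 : (i + 1) * G = i * G + G := by ring
    rcases Nat.lt_or_ge i (N0 L' M' υ' g') with h2 | h2
    · have h3 : i + 1 - N0 L' M' υ' g' = 0 := by omega
      have h4 : i - N0 L' M' υ' g' = 0 := by omega
      rw [h3, h4]
      omega
    · have h3 : i + 1 - N0 L' M' υ' g' = (i - N0 L' M' υ' g') + 1 := by omega
      have h4 : ((i - N0 L' M' υ' g') + 1) * υ' = (i - N0 L' M' υ' g') * υ' + υ' := by ring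
      rw [h3, h4]
      omega
  have hM'X : 4 * M' ≤ X / 4 := by omega
  have hwinC := hwin p (NN L' M' υ' g') (by
      intro i _
      rcases Nat.eq_zero_or_pos i with h1 | h1
      · subst h1
        rw [hp0, hps]
        have h2 : wpos M' υ' g' (N0 L' M' υ' g') 0 = M' := by rw [wpos_lt (Nat.zero_le _)]; ring
        rw [h2]
        omega
      · obtain ⟨j, rfl⟩ : ∃ j, i = j + 1 := ⟨i - 1, by omega⟩
        rw [hps, hps]
        exact hwstep j) (by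
      intro i hi
      rcases Nat.eq_zero_or_pos i with h1 | h1
      · subst h1
        rw [hp0]
        omega
      · obtain ⟨j, rfl⟩ : ∃ j, i = j + 1 := ⟨i - 1, by omega⟩
        rw [hps]
        have h2 := hp'.top (i := j) (by omega)
        have h3 : M' ≤ wpos M' υ' g' (N0 L' M' υ' g') j := by
          unfold wpos; omega
        omega) (by
      intro i _
      rcases Nat.eq_zero_or_pos i with h1 | h1
      · subst h1
        rw [hp0]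
        omega
      · obtain ⟨j, rfl⟩ : ∃ j, i = j + 1 := ⟨i - 1, by omega⟩
        rw [hps]
        have h3 : M' ≤ wpos M' υ' g' (N0 L' M' υ' g') j := by
          unfold wpos; omega
        omega)
  have hJsum : J₁ + n₀ + n₀ = J := by omega
  obtain ⟨τC, hτC, hC⟩ := scale hp' hS' (P := cP p (8 * υ')) (by
    intro i _
    unfold cP wP
    rw [hps]) hwinC r₃ ⟨by rw [hp0]; simpa [hJsum] using hok3.1, by rw [hp0]; simpa [hJsum] using hok3.2.1,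
      hok3.2.2.1, hok3.2.2.2⟩
  obtain ⟨N, hN⟩ : ∃ N, N = NN L' M' υ' g' := ⟨_, rfl⟩
  have hN1 : 1 ≤ N := by rw [hN]; exact NN_pos _ _ _ _
  rw [← hN] at hτC hC hwinC hNNle htot hJL3
  have hTT3 : ∀ t ∈ TB ∪ T, t ∈ r₃ :: b₃ := fun t ht => d4 t (hTT2 t ht)
  obtain ⟨b₄, f1, f2, f3, f4, f5, f6, f7⟩ := leg (ψ := ψ) (XX := X) hDR hTR hτC d2 d3 hTT3 (by omega) hψX (by
      have e1 : r₃ ≤ r + (J₁ + n₀ + n₀) * G + 8 * υ' := hok3.2.1
      rw [hJsum] at e1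
      omega) (by
    intro i hi
    rw [hps]
    have := hp'.top (i := i) (by omega)
    omega)
  obtain ⟨hlast1, hlast2⟩ := hτC.2.1 (N - 1) (Nat.zero_le _) (by omega)
  have hN' : N - 1 + 1 = N := by omega
  rw [hN'] at hlast1 hlast2
  rw [mem_cP, hps] at hlast1
  have htop := hp'.top (i := N - 1) (by omega)
  have hM'w : M' ≤ wpos M' υ' g' (N0 L' M' υ' g') (N - 1) := by
    unfold wpos; omega
  have hchain := (a1.trans c1).trans (d1.trans f1)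
  have hsuf : r₂ :: b₂ <:+ τC N :: b₄ := seg_suffix (d1.trans f1)
  refine ⟨τC N :: b₄, L', M', υ', g', X', S', D', tset τC 0 N, tset τB 0 n₀, τC N, b₄, hX1.trans hXX',
    ⟨hp', hS', ?_, hC, rfl, ?_, ?_, ?_, ?_, ?_, f3, hlast2.2.2, by omega, by omega, ?_, ?_⟩, ?_⟩
  · -- 1000 ψ ≤ L'
    have h1 := hp'.logX.2
    have h2 : (1000 * ψ X' : ℝ) ≤ L' := by linarith
    exact_mod_cast h2
  · -- invariants
    refine ⟨f2.srt, f2.elt, ?_, ?_⟩
    · intro x hx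
      exact f4 x (d4 x ((hD'mem x).mp hx))
    · intro x hx hxD d hd
      obtain ⟨pre, hpre⟩ := hsuf
      have hsrt := f2.srt
      rw [← hpre] at hx hsrt
      rcases List.mem_append.mp hx with h1 | h1
      · exact (List.pairwise_append.mp hsrt).2.2 x h1 d ((hD'mem d).mp hd)
      · exact absurd ((hD'mem x).mpr h1) hxD
  · -- T
    intro t ht
    refine ⟨f5 t ht, ?_⟩
    rw [mem_tset] at ht
    obtain ⟨i, h1, h2, h3⟩ := ht
    have h4 := (hτC.2.1 i h1 h2).1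
    rw [h3, mem_cP, hps] at h4
    have h5 : M' ≤ wpos M' υ' g' (N0 L' M' υ' g') i := by unfold wpos; omega
    omega
  · -- TB
    intro t ht
    refine ⟨f4 t (d5 t ht), ?_⟩
    rw [mem_tset] at ht
    obtain ⟨i, h1, h2, h3⟩ := ht
    have h4 := (hτB.2.1 i h1 h2).1
    rw [h3, mem_cP] at h4
    have h5 := hlin J (J₁ + n₀ + (i + 1)) (by omega)
    have h6 := hlin (J₁ + n₀ + (i + 1)) (J₁ + 2) (by omega)
    have h7 : (J₁ + 2) * G = (J₁ + 1) * G + G := by ring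
    clear hlast1 htop hM'w hM'X hwstep hlenA hL'63 hJL3 htot hNNle f6 f7 d6 d7 c6 c7 a6 a7
    omega
  · -- phase A
    intro y hy1 hy2 hy3
    obtain ⟨t, ht, h1, -⟩ := hpA y hy1 hy2 hy3
    refine ⟨t, (hD'mem t).mpr (c5 t ht), ?_, h1⟩
    rw [mem_tset] at ht
    obtain ⟨i, h1, h2, h3⟩ := ht
    have h4 := (hτA.2.1 i h1 h2).1
    rw [h3, mem_cP] at h4
    have h5 := hlin J (J₁ + (i + 1)) (by omega)
    omega
  · exact hpB
  · -- length
    have h1 : J₁ * L ^ 3 + n₀ * L ^ 3 + n₀ * L ^ 3 + N * L ^ 3 = (J + N) * L ^ 3 := by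
      rw [← hJsum]; ring
    clear hpA hpB hwin hC hT
    linarith
  · have h1 : L' ^ 17 ≤ N := by
      rw [hN]
      unfold NN N0
      have : NG L' = 16 * L' ^ 17 := by unfold NG; ring
      omega
    omega
  · rcases Relation.reflTransGen_iff_eq_or_transGen.mp hchain with h1 | h1
    · exfalso
      have h2 : τC N = r := (List.cons.inj h1).1
      omega
    · exact h1

end Pool.Agent.H550U.V
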