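import Pool.Agent.H550U.V.Ch
import Pool.Agent.H550U.Y.Win
import Pool.Agent.H550U.W.Chain

/-!
# Windows of the next scale, with walks
-/

namespace Pool.Agent.H550U.V

open Finset Pool.Agent.H550U.W Pool.Agent.H550U.Y

variable {L M υ g X : ℕ}

def aAdm (R : ℕ) (D TT : Finset ℕ) (K Λ : ℕ) (E E' : Finset ℕ) (_ a t : ℕ) : Prop :=
  (∃ n v, Ws R D TT a t n v ∧ 1 ≤ n ∧ n ≤ Λ ∧ v * (K + 1) ≤ 2 * n) ∧ t ∉ E ∧ t ∉ E'

theorem chain_win (h : Par L M υ g X) {S : Finset (ℕ × ℕ)} (hS : TCat X S) {T : Finset ℕ} (hT : Conn L M X S T)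
    (hTM : ∀ t ∈ T, M ≤ t) {K : ℕ} (hK : 1000 * K ≤ L) {D TB : Finset ℕ} (hD : ∀ t ∈ D, 0 < t)
    (hTB : ∀ t ∈ TB, M ≤ 2 * t ∧ t ≤ M) {R : ℕ} (hMR : M < R)
    (hA : ∀ y, PP y → y ≤ X / 4 → y ∉ EE X S → ∃ t ∈ D, t ≤ M ∧ PP (y + t))
    (hB : ∀ y, PP y → y ≤ X / 4 → y ∉ EE X S → ∃ t ∈ TB, PP (y + t) ∧ y + t ∉ BK D (EE X S) K)
    {υ' G : ℕ} (hυ' : υ' = M / 32) (hG : G = L ^ 2 * υ') {v₀ : ℕ}
    (hv₀ : PP v₀) (hv₀E : v₀ ∉ EE X S) (hv₀X : v₀ ≤ X) (E' : Finset ℕ) (hE' : (#E' : ℝ) ≤ υ' / (L : ℝ) ^ 184)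
    (L' : ℕ) (hL'0 : 1 ≤ L') (hL' : L' ≤ 2 * L) (p : ℕ → ℕ) (n : ℕ)
    (hp : ∀ i, i < n → p i + G ≤ p (i + 1) ∧ p (i + 1) ≤ p i + G + υ')
    (hp0 : ∀ i, i ≤ n → M ≤ p i ∧ p i + 8 * υ' ≤ X / 4) (hpR : ∀ i, i ≤ n → R ≤ p i) :
    Win (cP p (8 * υ')) (cOk p (8 * υ') (EE X S)) (aAdm R D (TB ∪ T) K (L ^ 3) (EE X S) E') (1 / (2 * (L' : ℝ) ^ 35)) 0 n := by
  classical
  obtain ⟨hb1, hb2, hb3⟩ := h.M_big
  have hLn := h.hL
  have hL := h.Lpos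
  have hυ'M : M ≤ 64 * υ' := by omega
  have hυ'1 : 1 ≤ υ' := by omega
  have hυ'0 : (0 : ℝ) < υ' := by exact_mod_cast hυ'1
  have hLp : ∀ n : ℕ, (0 : ℝ) < (L : ℝ) ^ n := fun n => pow_pos (by linarith) n
  have hL'p : (0 : ℝ) < (L' : ℝ) := by exact_mod_cast hL'0
  have hcard : ∀ i, i < n → 8 * (υ' : ℝ) / (L : ℝ) ^ 7 ≤ #(cP p (8 * υ') i) := by
    intro i hi
    obtain ⟨h1, h2⟩ := hp0 (i + 1) (by omega)
    exact h.next_card hS hυ' hv₀ hv₀E hv₀X (p (i + 1)) h1 (by omega) _ fun t => mem_cP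
  have hXM : (X : ℝ) = M * (L : ℝ) ^ 58 := by rw [h.hX]; push_cast; ring
  have hMυ' : (M : ℝ) ≤ 64 * υ' := by exact_mod_cast hυ'M
  have e1 : (X : ℝ) / (L : ℝ) ^ 156 ≤ υ' / (L : ℝ) ^ 97 := by
    rw [div_le_div_iff₀ (hLp 156) (hLp 97), hXM]
    have a1 : (L : ℝ) ^ 156 = L * ((L : ℝ) ^ 58 * (L : ℝ) ^ 97) := by rw [← pow_add, ← pow_succ']
    rw [a1]
    calc (M : ℝ) * (L : ℝ) ^ 58 * (L : ℝ) ^ 97 ≤ (64 * υ') * (L : ℝ) ^ 58 * (L : ℝ) ^ 97 := by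
          have := hLp 58
          have := hLp 97
          gcongr
      _ = 64 * (υ' * ((L : ℝ) ^ 58 * (L : ℝ) ^ 97)) := by ring
      _ ≤ L * (υ' * ((L : ℝ) ^ 58 * (L : ℝ) ^ 97)) := by
          apply mul_le_mul_of_nonneg_right (by linarith)
          exact mul_nonneg hυ'0.le (mul_nonneg (hLp _).le (hLp _).le)
      _ = υ' * (L * ((L : ℝ) ^ 58 * (L : ℝ) ^ 97)) := by ring
  have e2 : (#(EE X S) : ℝ) ≤ υ' / (L : ℝ) ^ 97 := by
    refine (h.E_le hS).trans ?_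
    have a1 : (υ : ℝ) ≤ υ' := by exact_mod_cast (by omega : υ ≤ υ')
    have a2 : (L : ℝ) ^ 97 ≤ (L : ℝ) ^ 184 := pow_le_pow_right₀ (by linarith) (by norm_num)
    exact div_le_div₀ hυ'0.le a1 (hLp 97) a2
  have e3 : (#E' : ℝ) ≤ υ' / (L : ℝ) ^ 97 := by
    refine hE'.trans ?_
    have a2 : (L : ℝ) ^ 97 ≤ (L : ℝ) ^ 184 := pow_le_pow_right₀ (by linarith) (by norm_num)
    exact div_le_div₀ hυ'0.le le_rfl (hLp 97) a2
  have e4 : 3 * ((υ' : ℝ) / (L : ℝ) ^ 97) ≤ 1 / (2 * (L' : ℝ) ^ 35) * (8 * (υ' : ℝ) / (L : ℝ) ^ 7) := by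
    have a1 : (L' : ℝ) ≤ 2 * L := by exact_mod_cast hL'
    have a2 : 2 * (L' : ℝ) ^ 35 ≤ 2 ^ 36 * (L : ℝ) ^ 35 := by
      calc 2 * (L' : ℝ) ^ 35 ≤ 2 * (2 * (L : ℝ)) ^ 35 := by gcongr
        _ = 2 ^ 36 * (L : ℝ) ^ 35 := by ring
    have a3 : 1 / (2 ^ 36 * (L : ℝ) ^ 35) ≤ 1 / (2 * (L' : ℝ) ^ 35) :=
      one_div_le_one_div_of_le (by positivity) a2
    refine le_trans ?_ (mul_le_mul_of_nonneg_right a3 (by have := hLp 7; positivity))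
    rw [mul_div_assoc', div_mul_div_comm, div_le_div_iff₀ (hLp 97) (by have := hLp 35; have := hLp 7; positivity)]
    have a4 : (L : ℝ) ^ 97 = (L : ℝ) ^ 42 * (L : ℝ) ^ 55 := by rw [← pow_add]
    have a5 : (2 : ℝ) ^ 40 ≤ (L : ℝ) ^ 55 := by
      calc (2 : ℝ) ^ 40 ≤ 1000000 ^ 3 := by norm_num
        _ ≤ (L : ℝ) ^ 3 := by gcongr
        _ ≤ (L : ℝ) ^ 55 := pow_le_pow_right₀ (by linarith) (by norm_num)
    rw [a4]
    calc 3 * (υ' : ℝ) * (2 ^ 36 * (L : ℝ) ^ 35 * (L : ℝ) ^ 7) = υ' * (L : ℝ) ^ 42 * (3 * 2 ^ 36) := by ring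
      _ ≤ υ' * (L : ℝ) ^ 42 * (8 * (L : ℝ) ^ 55) := by
          apply mul_le_mul_of_nonneg_left _ (mul_nonneg hυ'0.le (hLp _).le)
          calc (3 : ℝ) * 2 ^ 36 ≤ 8 * 2 ^ 40 := by norm_num
            _ ≤ 8 * (L : ℝ) ^ 55 := mul_le_mul_of_nonneg_left a5 (by norm_num)
      _ = 1 * (8 * υ') * ((L : ℝ) ^ 42 * (L : ℝ) ^ 55) := by ring
  refine ⟨?_, ?_, ?_⟩
  · intro i a t ha ht hA
    rw [mem_cP] at ht
    exact ⟨ht.1.1.le, ht.1.2, ht.2, hA.2.1⟩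
  · intro i _ hi
    have h1 := hcard i hi
    have h2 : (0 : ℝ) < 8 * (υ' : ℝ) / (L : ℝ) ^ 7 := div_pos (by linarith) (hLp 7)
    have h3 : (0 : ℝ) < #(cP p (8 * υ') i) := by linarith
    exact_mod_cast h3
  · intro i _ hi a ha Q hQ
    obtain ⟨c1, c2, c3, c4⟩ := ha
    obtain ⟨p1, p2⟩ := hp i hi
    obtain ⟨q1, q2⟩ := hp0 i hi.le
    obtain ⟨q3, q4⟩ := hp0 (i + 1) (by omega)
    have e46 : (2 * L + 4) * M + 2 * M = (2 * L + 6) * M := by ring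
    have hG64 : L ^ 2 * M ≤ 64 * G := by
      rw [hG]
      calc L ^ 2 * M ≤ L ^ 2 * (64 * υ') := Nat.mul_le_mul_left _ (by omega)
        _ = 64 * (L ^ 2 * υ') := by ring
    have hGbig : (2 * L + 6) * M ≤ G := by
      have d1 : 64 * ((2 * L + 6) * M) ≤ L ^ 2 * M := by
        calc 64 * ((2 * L + 6) * M) = (64 * (2 * L + 6)) * M := by ring
          _ ≤ L ^ 2 * M := by
            refine Nat.mul_le_mul_right _ ?_
            calc 64 * (2 * L + 6) ≤ 1000 * L ^ 1 := by rw [pow_one]; omega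
              _ ≤ L ^ 2 := lp (by omega) (by omega) (by norm_num)
      omega
    obtain ⟨y', nw, vw, w1, w2, w3, w4, w5, w6, w7, w8, w9⟩ := wander R D TB (EE X S) K M (X / 4)
      (p (i + 1) + 8 * υ' - (2 * L + 6) * M) hD hTB hMR hA hB (by omega) (by omega) _ a 0 le_rfl (Nat.zero_le _)
      (Or.inr ⟨rfl, by have := hpR i hi.le; omega⟩) c3 c4
      (by omega)
    have hRy' : R < y' := by have := hpR i hi.le; omega
    have hZ := hT y' w2 (by omega) w3 ((cP p (8 * υ') i).filter fun z => ¬ Reach T y' z) (by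
      intro z hz
      rw [mem_filter, mem_cP] at hz
      obtain ⟨⟨⟨z1, z2⟩, z3⟩, z4⟩ := hz
      refine ⟨by omega, z3, ?_, ?_, z4⟩
      · generalize (2 * L + 4) * M = x at *
        generalize (2 * L + 6) * M = x' at *
        omega
      · generalize (2 * L + 6) * M = x at *
        omega)
    have hsub : cP p (8 * υ') i ⊆ ((Q ∪ (cP p (8 * υ') i).filter fun z => ¬ Reach T y' z) ∪ EE X S) ∪ E' := by
      intro t ht
      rw [mem_union, mem_union, mem_union, mem_filter]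
      by_cases b1 : Reach T y' t
      · by_cases b2 : t ∈ EE X S
        · exact Or.inl (Or.inr b2)
        · by_cases b3 : t ∈ E'
          · exact Or.inr b3
          · refine Or.inl (Or.inl (Or.inl ((hQ t).mpr ⟨ht, ?_, b2, b3⟩)))
            obtain ⟨nr, r1, r2⟩ := Ws.of_reach (D := D) hTM hRy' b1
            rw [mem_cP] at ht
            have hb := seg_bounds (nr := nr) (t := t) hLn hb3 hK hυ' hG p1 p2 c1 c2 w4 w5 (by omega) (by omega) w8 w9 r2 (by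
              generalize (2 * L + 6) * M = x at *
              omega)
            exact ⟨nw + nr, vw + nr, (w1.mono subset_union_left).trans (r1.mono subset_union_right), hb.1, hb.2.1, hb.2.2⟩
      · exact Or.inl (Or.inl (Or.inr ⟨ht, b1⟩))
    have hc : #(cP p (8 * υ') i) ≤ #Q + #((cP p (8 * υ') i).filter fun z => ¬ Reach T y' z) + #(EE X S) + #E' := by
      refine (card_le_card hsub).trans ?_
      refine (card_union_le _ _).trans ?_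
      refine Nat.add_le_add_right ((card_union_le _ _).trans ?_) _
      exact Nat.add_le_add_right (card_union_le _ _) _
    have hc' : (#(cP p (8 * υ') i) : ℝ) ≤ #Q + #((cP p (8 * υ') i).filter fun z => ¬ Reach T y' z) + #(EE X S) + #E' := by
      exact_mod_cast hc
    have hδ : (1 / (2 * (L' : ℝ) ^ 35)) * (8 * (υ' : ℝ) / (L : ℝ) ^ 7) ≤ (1 / (2 * (L' : ℝ) ^ 35)) * #(cP p (8 * υ') i) :=
      mul_le_mul_of_nonneg_left (hcard i hi) (by positivity)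
    generalize (X : ℝ) / (L : ℝ) ^ 156 = x1 at *
    generalize (υ' : ℝ) / (L : ℝ) ^ 97 = x2 at *
    generalize 1 / (2 * (L' : ℝ) ^ 35) * (8 * (υ' : ℝ) / (L : ℝ) ^ 7) = x3 at *
    generalize 1 / (2 * (L' : ℝ) ^ 35) * (#(cP p (8 * υ') i) : ℝ) = x4 at *
    linarith only [hc', hδ, e4, e3, e2, e1, hZ]

end Pool.Agent.H550U.V
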