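import Pool.Agent.H550U.Y.BK

/-!
# Walks in which the current number is never its own partner
-/

namespace Pool.Agent.H550U.V

open Finset Pool.Agent.H550U.W Pool.Agent.H550U.Y

/-- walks as in `Wk`, in which the steps from numbers `z ≤ R` use elements of `T` less than `z` -/
inductive Ws (R : ℕ) (D T : Finset ℕ) : ℕ → ℕ → ℕ → ℕ → Prop
  | refl (y : ℕ) : Ws R D T y y 0 0
  | tru {y z n v : ℕ} (z' : ℕ) : Ws R D T y z n v → R < z → (∃ t ∈ D, z' = z + t ∧ PP z') →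
      (∀ t ∈ D, PP (z + t) → z' ≤ z + t) → Ws R D T y z' (n + 1) v
  | vio {y z n v : ℕ} (t : ℕ) : Ws R D T y z n v → (R < z ∨ t < z) → t ∈ T → PP (z + t) →
      Ws R D T y (z + t) (n + 1) (v + 1)

lemma Ws.trans {R : ℕ} {D T : Finset ℕ} {y z w n v n' v' : ℕ} (h : Ws R D T y z n v) (h' : Ws R D T z w n' v') :
    Ws R D T y w (n + n') (v + v') := by
  induction h' with
  | refl => exact h
  | tru z' _ h0 h1 h2 ih => exact Ws.tru z' ih h0 h1 h2
  | vio t _ h0 h1 h2 ih => exact Ws.vio t ih h0 h1 h2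

lemma Ws.mono {R : ℕ} {D T T' : Finset ℕ} (hT : T ⊆ T') {y z n v : ℕ} (h : Ws R D T y z n v) : Ws R D T' y z n v := by
  induction h with
  | refl => exact Ws.refl _
  | tru z' _ h0 h1 h2 ih => exact Ws.tru z' ih h0 h1 h2
  | vio t _ h0 h1 h2 ih => exact Ws.vio t ih h0 (hT h1) h2

lemma Ws.of_reach {R : ℕ} {D T : Finset ℕ} {M y z : ℕ} (hT : ∀ t ∈ T, M ≤ t) (hR : R < y) (h : Reach T y z) :
    ∃ n, Ws R D T y z n n ∧ y + n * M ≤ z := by
  unfold Reach at h
  induction h with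
  | refl => exact ⟨0, Ws.refl _, by omega⟩
  | tail _ hac ih =>
    obtain ⟨n, h1, h2⟩ := ih
    obtain ⟨h3, t, ht, rfl⟩ := hac
    refine ⟨n + 1, Ws.vio t h1 (Or.inl (by omega)) ht h3, ?_⟩
    have := hT t ht
    have : (n + 1) * M = n * M + M := by ring
    omega

/-- walking to a zone of length `M` -/
theorem wander (R : ℕ) (D TB E : Finset ℕ) (K M XX lo : ℕ) (hD : ∀ t ∈ D, 0 < t) (hTB : ∀ t ∈ TB, M ≤ 2 * t ∧ t ≤ M)
    (hMR : M < R)
    (hA : ∀ y, PP y → y ≤ XX → y ∉ E → ∃ t ∈ D, t ≤ M ∧ PP (y + t))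
    (hB : ∀ y, PP y → y ≤ XX → y ∉ E → ∃ t ∈ TB, PP (y + t) ∧ y + t ∉ BK D E K) (hM : 0 < M) (hXX : lo ≤ XX) :
    ∀ (d y j : ℕ), lo - y ≤ d → j ≤ K → (R < y ∨ (j = 0 ∧ R ≤ y)) → PP y → y ∉ BK D E j → y ≤ lo + M →
      ∃ y' n v, Ws R D TB y y' n v ∧ PP y' ∧ y' ∉ E ∧
      lo ≤ y' ∧ y' ≤ lo + M ∧ v * (K + 1) + j ≤ n + K ∧ n ≤ v * (K + 1) + j ∧ 2 * y + v * M ≤ 2 * y' ∧
      y' ≤ y + n * M := by
  classical
  intro d
  induction d with
  | zero =>
    intro y j hd hj _ hy hyB hyM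
    exact ⟨y, 0, 0, Ws.refl y, hy, fun h => hyB (E_sub_BK D E j h), by omega, hyM, by omega, by omega, by omega, by omega⟩
  | succ d ih =>
    intro y j hd hj hyR hy hyB hyM
    have hyE : y ∉ E := fun h => hyB (E_sub_BK D E j h)
    rcases Nat.lt_or_ge y lo with h | h
    swap
    · exact ⟨y, 0, 0, Ws.refl y, hy, hyE, h, hyM, by omega, by omega, by omega, by omega⟩
    rcases Nat.eq_zero_or_pos j with hj0 | hj0
    · -- a free step
      subst hj0
      obtain ⟨t, ht, h1, h2⟩ := hB y hy (by omega) hyE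
      obtain ⟨h3, h4⟩ := hTB t ht
      obtain ⟨y', n, v, w1, w2, w3, w4, w5, w6, w7, w8, w9⟩ :=
        ih (y + t) K (by omega) le_rfl (Or.inl (by omega)) h1 h2 (by omega)
      have w0 : Ws R D TB y (y + t) 1 1 := Ws.vio t (Ws.refl y) (Or.inr (by omega)) ht h1
      have e1 : (v + 1) * (K + 1) = v * (K + 1) + K + 1 := by ring
      have e2 : (v + 1) * M = v * M + M := by ring
      have e3 : (n + 1) * M = n * M + M := by ring
      refine ⟨y', n + 1, v + 1, ?_, w2, w3, w4, w5, by omega, by omega, by omega, by omega⟩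
      have := w0.trans w1
      rwa [Nat.add_comm 1 n, Nat.add_comm 1 v] at this
    · -- a step of the rule
      obtain ⟨j', rfl⟩ : ∃ j', j = j' + 1 := ⟨j - 1, by omega⟩
      have hRy : R < y := by omega
      obtain ⟨t₀, ht₀, h1, h2⟩ := hA y hy (by omega) hyE
      obtain ⟨Z, hZ⟩ : ∃ Z : Finset ℕ, Z = D.filter fun t => PP (y + t) := ⟨_, rfl⟩
      have hZne : Z.Nonempty := ⟨t₀, by rw [hZ, mem_filter]; exact ⟨ht₀, h2⟩⟩
      obtain ⟨t, htZ, hmin⟩ := exists_min_image Z id hZne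
      rw [hZ, mem_filter] at htZ
      have h3 : t ≤ t₀ := hmin t₀ (by rw [hZ, mem_filter]; exact ⟨ht₀, h2⟩)
      have h4 := hD t htZ.1
      obtain ⟨y', n, v, w1, w2, w3, w4, w5, w6, w7, w8, w9⟩ := ih (y + t) j' (by omega) (by omega) (Or.inl (by omega))
        htZ.2 (BK_step hyB htZ.1) (by omega)
      have w0 : Ws R D TB y (y + t) 1 0 := by
        refine Ws.tru (y + t) (Ws.refl y) hRy ⟨t, htZ.1, rfl, htZ.2⟩ ?_
        intro t' ht' hp
        have h5 : t ≤ t' := hmin t' (by rw [hZ, mem_filter]; exact ⟨ht', hp⟩)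
        omega
      have e3 : (n + 1) * M = n * M + M := by ring
      refine ⟨y', n + 1, v, ?_, w2, w3, w4, w5, by omega, by omega, by omega, by omega⟩
      have := w0.trans w1
      rwa [Nat.add_comm 1 n, Nat.zero_add] at this

end Pool.Agent.H550U.V
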